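import Pool.Agent.H.MP_fb8dd6_al.E

set_option autoImplicit false

namespace Pool.Agent.Results.MP_fb8dd6_al.No

/-- a total order invariant under multiplication on both sides -/
def BiInv {G : Type} [Group G] (ord : LinearOrder G) : Prop :=
  ∀ a b x y : G, ord.le a b → ord.le (x * a * y) (x * b * y)

/-- convex for at least one two-sided total order -/
def RelConvex {G : Type} [Group G] (K : Subgroup G) : Prop :=
  ∃ ord : LinearOrder G, BiInv ord ∧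
    ∀ k1 ∈ K, ∀ k2 ∈ K, ∀ g : G, ord.le k1 g → ord.le g k2 → g ∈ K

open Pool.Agent.H.MP_fb8dd6_al in
theorem result : ∃ (G : Type) (_ : Group G), (∃ ord : LinearOrder G, BiInv ord) ∧
    ∃ (I : Type) (K : I → Subgroup G) (H : Subgroup G), (∀ i, RelConvex (K i)) ∧
      (H : Set G) = ⋃ i, (K i : Set G) ∧ H.Normal ∧
      (∀ g : G, (∀ h ∈ H, g * h * g⁻¹ ∈ H) ∨ (∀ h ∈ H, g⁻¹ * h * g ∈ H)) ∧ ¬ RelConvex H := by
  obtain ⟨⟨P, hP⟩, h⟩ := main
  choose K h1 h2 Q hQ h3 using h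
  refine ⟨GG, inferInstance, ⟨hP.ord, hP.inv⟩, HH, fun i => sub (K i.1 i.2), sub HH,
    fun i => ⟨(hQ i.1 i.2).ord, (hQ i.1 i.2).inv, h3 i.1 i.2⟩, ?_, sub_normal HH,
    fun g => Or.inl fun h hh => (sub_normal HH).conj_mem h hh g,
    fun ⟨ord, a, b⟩ => not_convex ord a b⟩
  ext p
  simp only [Set.mem_iUnion]
  exact ⟨fun hp => ⟨⟨p.a, hp.2⟩, hp.1, h2 _ hp.2⟩, fun ⟨i, hi⟩ => ⟨hi.1, h1 _ i.2 hi.2⟩⟩

end Pool.Agent.Results.MP_fb8dd6_al.No
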